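import Mathlib
import Pool.Agent.BC.Stmts

set_option autoImplicit false

open Finset

namespace Pool.Agent.BC.H30

theorem av1_mono (m : ℕ) (g g' : ℤ → ℝ) (j : ℤ) (h : ∀ k, g k ≤ g' k) :
    av1 m g j ≤ av1 m g' j := by
  unfold av1
  rw [smul_eq_mul, smul_eq_mul]
  exact mul_le_mul_of_nonneg_left (Finset.sum_le_sum fun r _ => h _) (by positivity)

theorem av1_nonneg (m : ℕ) (g : ℤ → ℝ) (j : ℤ) (h : ∀ k, 0 ≤ g k) : 0 ≤ av1 m g j := by
  unfold av1
  rw [smul_eq_mul]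
  exact mul_nonneg (by positivity) (Finset.sum_nonneg fun r _ => h _)

theorem av1_const (m : ℕ) (c : ℝ) (j : ℤ) : av1 m (fun _ => c) j = c := by
  unfold av1
  simp

theorem av1_lin (m : ℕ) (a b : ℝ) (g g' : ℤ → ℝ) (j : ℤ) :
    av1 m (fun k => a * g k + b * g' k) j = a * av1 m g j + b * av1 m g' j := by
  unfold av1
  rw [smul_eq_mul, smul_eq_mul, smul_eq_mul, Finset.sum_add_distrib, ← Finset.mul_sum,
    ← Finset.mul_sum]
  ring

theorem av1_anc (q : ℕ) (φ : ℤ → ℝ) (l : ℤ) : av1 q (fun k => φ (k / 2 ^ q)) l = φ l := by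
  have h : ∀ r : Fin (2 ^ q), ((2 : ℤ) ^ q * l + ((r : ℕ) : ℤ)) / 2 ^ q = l := by
    intro r
    have h2 : (0 : ℤ) < 2 ^ q := by positivity
    have hr : ((r : ℕ) : ℤ) < 2 ^ q := by exact_mod_cast r.2
    rw [add_comm, Int.add_mul_ediv_left _ _ h2.ne', Int.ediv_eq_zero_of_lt (by positivity) hr,
      zero_add]
  have h3 : av1 q (fun k => φ (k / 2 ^ q)) l = av1 q (fun _ => φ l) l := by
    unfold av1
    refine congrArg _ (Finset.sum_congr rfl fun r _ => ?_)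
    exact congrArg φ (h r)
  rw [h3, av1_const]

theorem av1_sq (m : ℕ) (g : ℤ → ℝ) (j : ℤ) : (av1 m g j) ^ 2 ≤ av1 m (fun k => g k ^ 2) j := by
  unfold av1
  rw [smul_eq_mul, smul_eq_mul, mul_pow]
  have h := sq_sum_le_card_mul_sum_sq (s := (Finset.univ : Finset (Fin (2 ^ m))))
    (f := fun r => g (2 ^ m * j + ((r : ℕ) : ℤ)))
  rw [Finset.card_univ, Fintype.card_fin] at h
  push_cast at h
  have h0 : (0 : ℝ) < 2 ^ m := by positivity
  calc ((2 : ℝ) ^ m)⁻¹ ^ 2 * (∑ r : Fin (2 ^ m), g (2 ^ m * j + ((r : ℕ) : ℤ))) ^ 2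
      ≤ ((2 : ℝ) ^ m)⁻¹ ^ 2 * (2 ^ m * ∑ r : Fin (2 ^ m), g (2 ^ m * j + ((r : ℕ) : ℤ)) ^ 2) :=
        mul_le_mul_of_nonneg_left h (by positivity)
    _ = _ := by field_simp

theorem cau (tow : TowStmt) : CauStmt := by
  intro X _ _ x hx j hosc ε hε
  obtain ⟨m, hm⟩ := hosc (ε ^ 2 / 8) (by positivity)
  refine ⟨m, fun p q => ?_⟩
  have htow := (tow ℝ)
  -- the vectors u
  have hu : ∀ d : ℤ, ∃ u : X, ∀ q' : ℕ,
      av1 q' (fun k => ‖x (m + q') k - u‖ ^ 2) d ≤ hh x m d + ε ^ 2 / 8 := by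
    intro d
    have h1 : hh x m d < hh x m d + ε ^ 2 / 8 := by
      have : 0 < ε ^ 2 / 8 := by positivity
      linarith
    unfold hh at h1
    obtain ⟨u, hu⟩ := exists_lt_of_ciInf_lt h1
    refine ⟨u, fun q' => ?_⟩
    have hb : BddAbove (Set.range fun m' : ℕ =>
        av1 m' (fun k => ‖x (m + m') k - u‖ ^ 2) d) := by
      refine ⟨(1 + ‖u‖) ^ 2, ?_⟩
      rintro _ ⟨m', rfl⟩
      refine (av1_mono m' _ (fun _ => (1 + ‖u‖) ^ 2) d fun k => ?_).trans (av1_const _ _ _).le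
      have h3 : ‖x (m + m') k - u‖ ≤ 1 + ‖u‖ :=
        (norm_sub_le _ _).trans (add_le_add (hx.1 _ _) le_rfl)
      exact pow_le_pow_left₀ (norm_nonneg _) h3 2
    have h2 := le_ciSup hb q'
    have h4 : hh x m d = ⨅ u : X, ⨆ m' : ℕ, av1 m' (fun k => ‖x (m + m') k - u‖ ^ 2) d := rfl
    rw [h4]
    exact h2.trans hu.le
  choose u hu using hu
  -- the inner average
  have hin : ∀ d : ℤ, av1 (p + q) (fun k => ‖x (m + p + q) k - x (m + p) (k / 2 ^ q)‖ ^ 2) d ≤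
      4 * hh x m d + 4 * (ε ^ 2 / 8) := by
    intro d
    have h1 : av1 (p + q) (fun k => ‖x (m + p + q) k - x (m + p) (k / 2 ^ q)‖ ^ 2) d ≤
        av1 (p + q) (fun k => 2 * ‖x (m + p + q) k - u d‖ ^ 2 +
          2 * ‖x (m + p) (k / 2 ^ q) - u d‖ ^ 2) d := by
      refine av1_mono _ _ _ _ fun k => ?_
      have h2 : ‖x (m + p + q) k - x (m + p) (k / 2 ^ q)‖ ≤
          ‖x (m + p + q) k - u d‖ + ‖x (m + p) (k / 2 ^ q) - u d‖ := by
        have h3 : x (m + p + q) k - x (m + p) (k / 2 ^ q) =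
            (x (m + p + q) k - u d) - (x (m + p) (k / 2 ^ q) - u d) := by abel
        rw [h3]
        exact norm_sub_le _ _
      have h4 := norm_nonneg (x (m + p + q) k - x (m + p) (k / 2 ^ q))
      nlinarith [sq_nonneg (‖x (m + p + q) k - u d‖ - ‖x (m + p) (k / 2 ^ q) - u d‖),
        norm_nonneg (x (m + p + q) k - u d), norm_nonneg (x (m + p) (k / 2 ^ q) - u d),
        pow_le_pow_left₀ h4 h2 2]
    rw [av1_lin] at h1
    have h5 : av1 (p + q) (fun k => ‖x (m + p + q) k - u d‖ ^ 2) d ≤ hh x m d + ε ^ 2 / 8 := by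
      have := hu d (p + q)
      rw [← Nat.add_assoc] at this
      exact this
    have h6 : av1 (p + q) (fun k => ‖x (m + p) (k / 2 ^ q) - u d‖ ^ 2) d ≤
        hh x m d + ε ^ 2 / 8 := by
      rw [(htow p q).2]
      have h7 : (fun l => av1 q (fun k => ‖x (m + p) (k / 2 ^ q) - u d‖ ^ 2) l) =
          fun l => ‖x (m + p) l - u d‖ ^ 2 := by
        funext l
        exact av1_anc q (fun l => ‖x (m + p) l - u d‖ ^ 2) l
      rw [h7]
      exact hu d p
    linarith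
  have hsq : av1 (m + p + q) (fun k => ‖x (m + p + q) k - x (m + p) (k / 2 ^ q)‖ ^ 2) j ≤
      ε ^ 2 := by
    have h1 : av1 (m + p + q) (fun k => ‖x (m + p + q) k - x (m + p) (k / 2 ^ q)‖ ^ 2) j =
        av1 m (fun d => av1 (p + q)
          (fun k => ‖x (m + p + q) k - x (m + p) (k / 2 ^ q)‖ ^ 2) d) j := by
      have h2 := (htow m (p + q)).2 (fun k => ‖x (m + p + q) k - x (m + p) (k / 2 ^ q)‖ ^ 2) j
      rw [← Nat.add_assoc] at h2
      exact h2
    rw [h1]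
    refine (av1_mono m _ _ j hin).trans ?_
    have h3 : av1 m (fun d => 4 * hh x m d + 4 * (ε ^ 2 / 8)) j =
        4 * av1 m (hh x m) j + 4 * (ε ^ 2 / 8) := by
      have h4 := av1_lin m 4 4 (hh x m) (fun _ => ε ^ 2 / 8) j
      rw [av1_const] at h4
      exact h4
    rw [h3]
    linarith
  have hfin := av1_sq (m + p + q) (fun k => ‖x (m + p + q) k - x (m + p) (k / 2 ^ q)‖) j
  exact (abs_le_of_sq_le_sq' (hfin.trans hsq) hε.le).2

end Pool.Agent.BC.H30
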